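import Pool.Agent.H343.QF.StS

set_option autoImplicit false

/-! # MP_9a852a_al, S7 : the limit group is lacunary hyperbolic -/

namespace Pool.Agent.H331.QF

open Pool.Agent.TH68 Pool.Agent.H343.QF Filter Topology

section words

variable {G : Type} [Group G] (V : WNorm G) (S : Set G)

theorem norm_prod_le (h1 : ∀ s ∈ S, V.ℓ s ≤ 1) (l : List G) (hl : ∀ x ∈ l, x ∈ S ∨ x⁻¹ ∈ S) :
    V.ℓ l.prod ≤ l.length := by
  induction l with
  | nil => simp [V.one']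
  | cons x l ih =>
    rw [List.prod_cons, List.length_cons]
    have h2 := ih fun y hy => hl y (List.mem_cons_of_mem _ hy)
    have h3 : V.ℓ x ≤ 1 := by
      rcases hl x List.mem_cons_self with h | h
      · exact h1 x h
      · rw [← V.inv' x]
        exact h1 _ h
    have h4 := V.mul_le x l.prod
    omega

theorem exists_list (h2 : ∀ g, V.ℓ g = 1 → g ∈ S ∨ g⁻¹ ∈ S) (n : ℕ) :
    ∀ g, V.ℓ g = n → ∃ l : List G, l.length = n ∧ (∀ x ∈ l, x ∈ S ∨ x⁻¹ ∈ S) ∧ l.prod = g := by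
  induction n with
  | zero =>
    intro g hg
    exact ⟨[], rfl, by simp, by rw [List.prod_nil, V.eq_one g hg]⟩
  | succ n ih =>
    intro g hg
    obtain ⟨x, y, hxy, hx, hy⟩ := V.geod g 1 (by omega)
    obtain ⟨l, h3, h4, h5⟩ := ih y (by omega)
    refine ⟨x :: l, by simp [h3], fun z hz => ?_, by rw [List.prod_cons, h5, hxy]⟩
    rcases List.mem_cons.1 hz with rfl | hz
    · exact h2 z hx
    · exact h4 z hz

theorem norm_eq_wlen (h1 : ∀ s ∈ S, V.ℓ s ≤ 1) (h2 : ∀ g, V.ℓ g = 1 → g ∈ S ∨ g⁻¹ ∈ S) (g : G) :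
    V.ℓ g = wlen S g := by
  obtain ⟨l, h3, h4, h5⟩ := exists_list V S h2 _ g rfl
  refine le_antisymm ?_ (Nat.sInf_le ⟨l, h3, h4, h5⟩)
  refine le_csInf ⟨_, l, h3, h4, h5⟩ ?_
  rintro n ⟨l', rfl, h6, rfl⟩
  exact norm_prod_le V S h1 l' h6

theorem closure_eq (h2 : ∀ g, V.ℓ g = 1 → g ∈ S ∨ g⁻¹ ∈ S) : Subgroup.closure S = ⊤ := by
  rw [eq_top_iff]
  intro g _
  obtain ⟨l, -, h4, rfl⟩ := exists_list V S h2 _ g rfl
  refine Subgroup.list_prod_mem _ fun x hx => ?_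
  rcases h4 x hx with h | h
  · exact Subgroup.subset_closure h
  · exact (Subgroup.inv_mem_iff _).1 (Subgroup.subset_closure h)

end words

section growth

variable {B : ℕ} {ee : ℕ → ℕ}

theorem ee_pos (h : Gro B ee) (m : ℕ) : 1 ≤ ee m := by
  have hB : 1 ≤ B := le_trans (by norm_num) h.b
  have hB6 : 1 ≤ B ^ 6 := Nat.one_le_pow _ _ hB
  induction m with
  | zero => exact le_trans (by nlinarith) h.z
  | succ m ih =>
    refine le_trans ?_ (h.s m)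
    have h1 : 1 ≤ (m + 2) ^ 2 := Nat.one_le_pow _ _ (by omega)
    have h2 : 1 ≤ 10 ^ 20 * B ^ 6 := by nlinarith
    exact Nat.one_le_iff_ne_zero.2 (by positivity)

theorem dlm_one (h : Gro B ee) (m : ℕ) : 1 ≤ dlm B ee m := by
  cases m with
  | zero => exact le_rfl
  | succ m =>
    have h1 : (1 : ℝ) ≤ ee m := by exact_mod_cast ee_pos h m
    have h2 : (1 : ℝ) ≤ (B : ℝ) ^ 2 := by
      have : (1 : ℝ) ≤ B := by exact_mod_cast le_trans (by norm_num) h.b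
      nlinarith
    change (1 : ℝ) ≤ 4 * (B : ℝ) ^ 2 * ee m
    nlinarith

theorem growth (h : Gro B ee) (m : ℕ) :
    10 ^ 4 * ((m : ℝ) + 1) ^ 2 * dlm B ee m ≤ (B : ℝ) ^ 2 * ee m := by
  have hB : (10 : ℝ) ^ 14 ≤ B := by exact_mod_cast h.b
  have hB1 : (1 : ℝ) ≤ B := le_trans (by norm_num) hB
  have hB2 : (10 : ℝ) ^ 4 ≤ (B : ℝ) ^ 2 := by nlinarith
  cases m with
  | zero =>
    have h1 : (1 : ℝ) ≤ ee 0 := by exact_mod_cast ee_pos h 0
    change 10 ^ 4 * (((0 : ℕ) : ℝ) + 1) ^ 2 * 1 ≤ (B : ℝ) ^ 2 * ee 0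
    rw [Nat.cast_zero]
    nlinarith
  | succ m =>
    have h1 : (1 : ℝ) ≤ ee m := by exact_mod_cast ee_pos h m
    have h2 : (10 : ℝ) ^ 20 * (B : ℝ) ^ 6 * ((m : ℝ) + 2) ^ 2 * ee m ≤ ee (m + 1) := by
      exact_mod_cast h.s m
    have h3 : (1 : ℝ) ≤ (B : ℝ) ^ 6 := one_le_pow₀ hB1
    change 10 ^ 4 * (((m + 1 : ℕ) : ℝ) + 1) ^ 2 * (4 * (B : ℝ) ^ 2 * ee m) ≤
      (B : ℝ) ^ 2 * ee (m + 1)
    have h4 : 4 * 10 ^ 4 * (((m : ℝ) + 2) ^ 2 * ee m) ≤ ee (m + 1) := by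
      refine le_trans ?_ h2
      have h5 : (4 : ℝ) * 10 ^ 4 ≤ 10 ^ 20 * (B : ℝ) ^ 6 := by nlinarith
      have h6 : 0 ≤ ((m : ℝ) + 2) ^ 2 * ee m := by positivity
      calc 4 * 10 ^ 4 * (((m : ℝ) + 2) ^ 2 * ee m)
          ≤ (10 ^ 20 * (B : ℝ) ^ 6) * (((m : ℝ) + 2) ^ 2 * ee m) :=
            mul_le_mul_of_nonneg_right h5 h6
        _ = _ := by ring
    calc 10 ^ 4 * (((m + 1 : ℕ) : ℝ) + 1) ^ 2 * (4 * (B : ℝ) ^ 2 * ee m)
        = (B : ℝ) ^ 2 * (4 * 10 ^ 4 * (((m : ℝ) + 2) ^ 2 * ee m)) := by push_cast; ring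
      _ ≤ _ := mul_le_mul_of_nonneg_left h4 (by positivity)

end growth

/-- inequalities for the scaling factor -/
theorem scale {u w N : ℝ} (hu : 1 ≤ u) (hN : 1 ≤ N) (h : 10 ^ 4 * N ^ 2 * u ≤ w) :
    N ≤ Real.sqrt (u * w) ∧ u / Real.sqrt (u * w) ≤ 1 / N ∧ N ≤ w / 100 / Real.sqrt (u * w) := by
  have hw : 0 < w := lt_of_lt_of_le (by positivity) h
  have huw : 0 < u * w := by positivity
  have hs : 0 < Real.sqrt (u * w) := Real.sqrt_pos.2 huw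
  have hN2 : 0 ≤ N ^ 2 := by positivity
  have hNu : N ^ 2 * u ≤ w := le_trans (by nlinarith [mul_nonneg hN2 (by linarith : 0 ≤ u)]) h
  refine ⟨?_, ?_, ?_⟩
  · refine Real.le_sqrt_of_sq_le ?_
    nlinarith
  · rw [div_le_div_iff₀ hs (by linarith), one_mul]
    refine Real.le_sqrt_of_sq_le ?_
    nlinarith
  · rw [le_div_iff₀ hs, le_div_iff₀ (by norm_num : (0 : ℝ) < 100)]
    have h1 : (N * Real.sqrt (u * w) * 100) ^ 2 ≤ w ^ 2 := by
      rw [mul_pow, mul_pow, Real.sq_sqrt huw.le]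
      nlinarith
    exact abs_le_of_sq_le_sq' h1 hw.le |>.2

theorem lac : S_cone → S_lac := by
  intro hc B ee hg V hV
  have hS1 : ∀ s ∈ ({(xa : F2 ⧸ KI B ee), (xb : F2 ⧸ KI B ee)} : Set (F2 ⧸ KI B ee)),
      V.ℓ s ≤ 1 := by
    intro s hs
    rcases hs with rfl | rfl
    · have h := hV.pow 1
      rw [zpow_one] at h
      simp only [abs_one] at h
      omega
    · exact hV.lb.le
  have hS2 : ∀ g, V.ℓ g = 1 →
      g ∈ ({(xa : F2 ⧸ KI B ee), (xb : F2 ⧸ KI B ee)} : Set (F2 ⧸ KI B ee)) ∨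
      g⁻¹ ∈ ({(xa : F2 ⧸ KI B ee), (xb : F2 ⧸ KI B ee)} : Set (F2 ⧸ KI B ee)) := by
    intro g hg
    rcases hV.gen g hg with rfl | rfl | rfl | rfl
    · exact Or.inl (Or.inl rfl)
    · exact Or.inr (Or.inl (inv_inv _))
    · exact Or.inl (Or.inr rfl)
    · exact Or.inr (Or.inr (inv_inv _))
  have hcl := closure_eq V _ hS2
  have hfin : ({(xa : F2 ⧸ KI B ee), (xb : F2 ⧸ KI B ee)} : Set (F2 ⧸ KI B ee)).Finite :=
    Set.toFinite _
  have hsc := fun m => scale (dlm_one hg m) (by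
    have : (0 : ℝ) ≤ m := Nat.cast_nonneg m
    linarith) (growth hg m)
  have hN : Tendsto (fun m : ℕ => (m : ℝ) + 1) atTop atTop :=
    tendsto_atTop_add_const_right _ _ tendsto_natCast_atTop_atTop
  refine ⟨⟨_, hfin, hcl, hyperfilter ℕ, hyperfilter_le_cofinite,
    fun m => Real.sqrt (dlm B ee m * ((B : ℝ) ^ 2 * ee m)), ?_, ?_, ?_⟩,
    Group.fg_iff.2 ⟨_, hcl, hfin⟩, ?_⟩
  · intro m
    have : (0 : ℝ) ≤ m := Nat.cast_nonneg m
    linarith [(hsc m).1]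
  · exact tendsto_atTop_mono (fun m => (hsc m).1) hN
  · refine hc V _ (norm_eq_wlen V _ hS1 hS2) (dlm B ee) (fun m => (B : ℝ) ^ 2 * ee m / 100)
      (fun m => Real.sqrt (dlm B ee m * ((B : ℝ) ^ 2 * ee m))) ?_ ?_ ?_ ?_ hV.four
      (hyperfilter ℕ) hyperfilter_le_cofinite
    · intro m
      have : (0 : ℝ) ≤ m := Nat.cast_nonneg m
      linarith [(hsc m).1]
    · exact tendsto_atTop_mono (fun m => (hsc m).1) hN
    · refine squeeze_zero (fun m => ?_) (fun m => (hsc m).2.1) ?_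
      · have := dlm_one hg m
        positivity
      · exact tendsto_const_nhds.div_atTop hN
    · exact tendsto_atTop_mono (fun m => (hsc m).2.2) hN
  · intro hcyc
    apply hV.bn
    refine hV.cen _ ?_
    obtain ⟨z, hz⟩ := hcyc.exists_generator
    obtain ⟨i, hi⟩ := Subgroup.mem_zpowers_iff.1 (hz (xa : F2 ⧸ KI B ee))
    obtain ⟨j, hj⟩ := Subgroup.mem_zpowers_iff.1 (hz (xb : F2 ⧸ KI B ee))
    rw [← hi, ← hj, ← zpow_add, ← zpow_add, add_comm]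

end Pool.Agent.H331.QF
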